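import Mathlib

set_option autoImplicit false
open Matrix

namespace Pool.Agent.H.MP_a20134_al
noncomputable section

def A : Matrix (Fin 5) (Fin 5) ℝ :=
  !![8, 5, 1, 1, 5; 5, 8, 5, 1, 1; 1, 5, 8, 5, 1; 1, 1, 5, 8, 5; 5, 1, 1, 5, 8]

def Hn : Matrix (Fin 5) (Fin 5) ℝ :=
  !![1, -1, 1, 1, -1; -1, 1, -1, 1, 1; 1, -1, 1, -1, 1; 1, 1, -1, 1, -1; -1, 1, 1, -1, 1]

def t : ℝ := (√5 + 1) / 2
def s : ℝ := (√5 - 1) / 2

def B : Matrix (Fin 5) (Fin 5) ℝ :=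
  !![t, 0, 0, s, √5; √5, t, 0, 0, s; s, √5, t, 0, 0; 0, s, √5, t, 0; 0, 0, s, √5, t]

theorem sq5 : √5 * √5 = (5 : ℝ) := Real.mul_self_sqrt (by norm_num)

theorem one_le : (1 : ℝ) ≤ √5 := Real.one_le_sqrt.2 (by norm_num)

theorem B_nonneg (i j : Fin 5) : 0 ≤ B i j := by
  have h := one_le
  have ht : 0 ≤ t := by unfold t; linarith
  have hs : 0 ≤ s := by unfold s; linarith
  fin_cases i <;> fin_cases j <;> simp [B, ht, hs]

theorem A_eq : A = B * Bᵀ := by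
  have h := sq5
  ext i j
  fin_cases i <;> fin_cases j <;> simp [A, B, Matrix.mul_apply, Fin.sum_univ_five, t, s] <;>
    nlinarith

theorem A_rat (i j : Fin 5) : ∃ q : ℚ, A i j = (q : ℝ) := by
  have h8 : ∃ q : ℚ, (8 : ℝ) = q := ⟨8, by norm_num⟩
  have h5 : ∃ q : ℚ, (5 : ℝ) = q := ⟨5, by norm_num⟩
  have h1 : ∃ q : ℚ, (1 : ℝ) = q := ⟨1, by norm_num⟩
  fin_cases i <;> fin_cases j <;> first | exact h8 | exact h5 | exact h1

theorem A_pos (i j : Fin 5) : 0 < A i j := by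
  fin_cases i <;> fin_cases j <;> simp [A]

theorem A_posDef : A.PosDef := by
  have hB : IsUnit B := by
    rw [Matrix.isUnit_iff_isUnit_det, isUnit_iff_ne_zero]
    intro h0
    have : A.det = 0 := by rw [A_eq, det_mul, h0, zero_mul]
    revert this
    simp [A, Matrix.det_succ_row_zero, Fin.sum_univ_succ, Fin.succAbove]
    norm_num
  have := (Matrix.PosDef.one (n := Fin 5) (R := ℝ)).mul_mul_conjTranspose_same
    (B := B) (Matrix.vecMul_injective_iff_isUnit.2 hB)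
  rw [A_eq]
  simpa using this

theorem horn (x : Fin 5 → ℝ) (hx : ∀ i, 0 ≤ x i) : 0 ≤ ∑ i, ∑ j, Hn i j * (x i * x j) := by
  simp [Hn, Fin.sum_univ_five]
  have h0 := hx 0
  have h1 := hx 1
  have h2 := hx 2
  have h3 := hx 3
  have h4 := hx 4
  rcases le_total (x 3) (x 4) with h | h
  · nlinarith [sq_nonneg (x 0 - x 1 + x 2 + x 3 - x 4), mul_nonneg h1 h3,
      mul_nonneg h2 (sub_nonneg.2 h)]
  · nlinarith [sq_nonneg (x 0 - x 1 + x 2 - x 3 + x 4), mul_nonneg h1 h4,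
      mul_nonneg h0 (sub_nonneg.2 h)]

theorem A_bdry (ε : ℝ) (hε : 0 < ε) : ∃ S : Matrix (Fin 5) (Fin 5) ℝ, Sᵀ = S ∧
    (∀ i j, |S i j - A i j| < ε) ∧
    ¬ ∃ m : ℕ, ∃ C : Matrix (Fin 5) (Fin m) ℝ, (∀ i j, 0 ≤ C i j) ∧ S = C * Cᵀ := by
  refine ⟨A - (ε / 2) • Hn, ?_, ?_, ?_⟩
  · ext i j
    fin_cases i <;> fin_cases j <;> simp [A, Hn]
  · intro i j
    have h2 : |ε / 2| < ε := by rw [abs_of_pos (by linarith)]; linarith
    fin_cases i <;> fin_cases j <;> simpa [Hn] using h2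
  · rintro ⟨m, C, hC, h⟩
    have h1 : 0 ≤ ∑ i, ∑ j, Hn i j * (C * Cᵀ) i j := by
      simp only [Matrix.mul_apply, Matrix.transpose_apply, Finset.mul_sum]
      have : ∑ i, ∑ j, ∑ k, Hn i j * (C i k * C j k) = ∑ k, ∑ i, ∑ j, Hn i j * (C i k * C j k) := by
        rw [Finset.sum_comm (s := (Finset.univ : Finset (Fin m)))]
        exact Finset.sum_congr rfl fun i _ => Finset.sum_comm
      rw [this]
      exact Finset.sum_nonneg fun k _ => horn (fun i => C i k) fun i => hC i k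
    rw [← h] at h1
    simp [A, Hn, Fin.sum_univ_five] at h1
    linarith

theorem irr5 : Irrational (√5 : ℝ) := by
  simpa using Nat.Prime.irrational_sqrt (p := 5) (by norm_num)

theorem B_irr : ¬ ∃ r : ℚ, B 0 0 * B 0 0 = (r : ℝ) := by
  rintro ⟨r, hr⟩
  apply irr5
  refine ⟨2 * r - 3, ?_⟩
  have h := sq5
  simp [B, t] at hr
  push_cast
  nlinarith

end
end Pool.Agent.H.MP_a20134_al
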